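import Pool.Agent.K9h94.SA.Defs
import Pool.Agent.Y480.PI.Main

/-!
Blocks of the images of the letters, the choice of pairs of blocks, and words which produce a
coincidence.
-/

set_option autoImplicit false

namespace Pool.Agent.K9h94.SA

open Pool.Agent.H812R2.PI Pool.Agent.TH100.Pisot Pool.Agent.Y480.PI
open scoped BigOperators

variable {d : ℕ}

/-- the position at which the block `j` starts -/
def st (l : List (List (Fin d))) (j : ℕ) : ℕ := (l.take j).flatten.length

theorem ab_flatten (l : List (List (Fin d))) : ab l.flatten = (l.map ab).sum := by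
  induction l with
  | nil => simp [ab_nil]
  | cons w l ih => rw [List.flatten_cons, ab_append, List.map_cons, List.sum_cons, ih]

theorem flatten_split (l : List (List (Fin d))) (j : ℕ) (hj : j < l.length) :
    l.flatten = (l.take j).flatten ++ (l[j] ++ (l.drop (j + 1)).flatten) := by
  conv_lhs => rw [← List.take_append_drop j l]
  rw [List.flatten_append, List.drop_eq_getElem_cons hj, List.flatten_cons]

theorem st_succ (l : List (List (Fin d))) (j : ℕ) (hj : j < l.length) :
    st l (j + 1) = st l j + l[j].length := by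
  unfold st
  rw [List.take_succ_eq_append_getElem hj, List.flatten_append, List.length_append]
  simp

theorem end_le (l : List (List (Fin d))) (j : ℕ) (hj : j < l.length) :
    st l j + l[j].length ≤ l.flatten.length := by
  conv_rhs => rw [flatten_split l j hj]
  rw [List.length_append, List.length_append]
  unfold st
  omega

theorem find_block (l : List (List (Fin d))) :
    ∀ x : ℕ, x < l.flatten.length →
      ∃ (j : ℕ) (hj : j < l.length), st l j ≤ x ∧ x < st l j + l[j].length := by
  induction l with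
  | nil => intro x hx; simp at hx
  | cons w l ih =>
    intro x hx
    by_cases hxw : x < w.length
    · exact ⟨0, by simp, by simp [st], by simpa [st] using hxw⟩
    · rw [List.flatten_cons, List.length_append] at hx
      obtain ⟨j, hj, h1, h2⟩ := ih (x - w.length) (by omega)
      have e : st (w :: l) (j + 1) = w.length + st l j := by
        unfold st
        rw [List.take_succ_cons, List.flatten_cons, List.length_append]
      refine ⟨j + 1, by simpa using hj, ?_, ?_⟩
      · rw [e]; omega
      · rw [e, List.getElem_cons_succ]; omega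

theorem next_exists (l : List (List (Fin d))) (j : ℕ) (hj : j < l.length)
    (h : st l j + l[j].length < l.flatten.length) : j + 1 < l.length := by
  by_contra hcon
  have h1 : st l (j + 1) = l.flatten.length := by
    unfold st
    rw [List.take_of_length_le (by omega)]
  rw [st_succ l j hj] at h1
  omega

theorem take_at (l : List (List (Fin d))) (j : ℕ) (hj : j < l.length) (k : ℕ)
    (hk : k ≤ l[j].length) :
    ab (l.flatten.take (st l j + k)) = ab (l.take j).flatten + ab (l[j].take k) := by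
  conv_lhs => rw [flatten_split l j hj]
  have h1 : st l j = (l.take j).flatten.length := rfl
  rw [List.take_append, List.take_of_length_le (by omega), ab_append, h1,
    Nat.add_sub_cancel_left, List.take_append_of_le_length hk]

/-- two windows of length `K`, one of which is contained in one block -/
theorem two_windows {l : List (List (Fin d))} {K : ℕ} (hK : 0 < K)
    (hl : ∀ w ∈ l, 2 * K ≤ w.length) (z : ℕ) (hz : z + 2 * K ≤ l.flatten.length) :
    ∃ δ : ℕ, δ ≤ K ∧ ∃ (j : ℕ) (hj : j < l.length), st l j ≤ z + δ ∧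
      z + δ + K ≤ st l j + l[j].length := by
  obtain ⟨j, hj, h1, h2⟩ := find_block l z (by omega)
  by_cases h3 : z + K ≤ st l j + l[j].length
  · exact ⟨0, by omega, j, hj, by omega, by omega⟩
  · have h4 := next_exists l j hj (by omega)
    have h5 := st_succ l j hj
    have h6 := hl l[j + 1] (List.getElem_mem h4)
    exact ⟨K, le_rfl, j + 1, h4, by omega, by omega⟩

/-- the choice of a pair of blocks -/
theorem select {lA lB : List (List (Fin d))} {K L : ℕ} (hK : 0 < K) (hKL : 2 * K ≤ L)
    (hA : ∀ w ∈ lA, 2 * K ≤ w.length ∧ w.length ≤ L)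
    (hB : ∀ w ∈ lB, 2 * K ≤ w.length ∧ w.length ≤ L) (x x' : ℕ)
    (h1 : x + 2 * L ≤ lA.flatten.length) (h2 : x' + 2 * L ≤ lB.flatten.length) :
    ∃ (j : ℕ) (hj : j < lA.length) (j' : ℕ) (hj' : j' < lB.length) (y : ℕ), 0 < y ∧ y ≤ L + K ∧
      x < st lA j ∧ st lA j + lA[j].length ≤ x + 2 * L ∧
      st lA j ≤ x + y ∧ x + y + K ≤ st lA j + lA[j].length ∧
      st lB j' ≤ x' + y ∧ x' + y + K ≤ st lB j' + lB[j'].length := by
  obtain ⟨j₀, hj₀, a1, a2⟩ := find_block lA x (by omega)
  have a3 := (hA lA[j₀] (List.getElem_mem hj₀)).2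
  have hj := next_exists lA j₀ hj₀ (by omega)
  have a4 := st_succ lA j₀ hj₀
  have a5 := hA lA[j₀ + 1] (List.getElem_mem hj)
  obtain ⟨y₀, hy₀⟩ : ∃ y₀, st lA (j₀ + 1) = x + y₀ := ⟨st lA (j₀ + 1) - x, by omega⟩
  obtain ⟨δ, hδ, j', hj', b1, b2⟩ := two_windows (l := lB) hK (fun w hw => (hB w hw).1) (x' + y₀)
    (by omega)
  exact ⟨j₀ + 1, hj, j', hj', y₀ + δ, by omega, by omega, by omega, by omega, by omega, by omega,
    by omega, by omega⟩

/-! ### the random substitution -/

theorem perm_of_ab {w w' : List (Fin d)} (h : ab w = ab w') : w.Perm w' := by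
  rw [List.perm_iff_count]
  intro a
  have := congrFun h a
  simp only [ab] at this
  exact_mod_cast this

theorem ab_of_perm {w w' : List (Fin d)} (h : w.Perm w') : ab w = ab w' := by
  funext i
  simp only [ab]
  rw [h.count_eq]

variable {W : Fin d → List (List (Fin d))}

theorem mem_rearr {i : Idx W} {w : List (Fin d)} : w ∈ rearr W i ↔ w.Perm (blk W i) := by
  unfold rearr
  rw [List.mem_toFinset, List.mem_permutations]

theorem mem_outcomes {x : Idx W → List (Fin d)} :
    x ∈ outcomes W ↔ ∀ i, (x i).Perm (blk W i) := by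
  unfold outcomes
  rw [Fintype.mem_piFinset]
  simp only [mem_rearr]

/-- the list of the words which replace the blocks -/
def wl (W : Fin d → List (List (Fin d))) (x : Idx W → List (Fin d)) (a : Fin d) :
    List (List (Fin d)) := List.ofFn fun j : Fin (W a).length => x ⟨a, j⟩

theorem wl_length (x : Idx W → List (Fin d)) (a : Fin d) : (wl W x a).length = (W a).length := by
  simp [wl]

theorem wl_get (x : Idx W → List (Fin d)) (a : Fin d) (j : ℕ) (hj : j < (W a).length) :
    (wl W x a)[j]'(by rw [wl_length]; exact hj) = x ⟨a, ⟨j, hj⟩⟩ := by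
  simp [wl]

theorem wl_map {x : Idx W → List (Fin d)} (hx : x ∈ outcomes W) (a : Fin d) :
    (wl W x a).map ab = (W a).map ab := by
  apply List.ext_getElem
  · simp [wl_length]
  · intro j h1 h2
    rw [List.getElem_map, List.getElem_map]
    have hj : j < (W a).length := by simpa using h2
    rw [wl_get x a j hj]
    exact ab_of_perm (mem_outcomes.1 hx ⟨a, ⟨j, hj⟩⟩)

theorem wl_take {x : Idx W → List (Fin d)} (hx : x ∈ outcomes W) (a : Fin d) (j : ℕ) :
    ab ((wl W x a).take j).flatten = ab ((W a).take j).flatten := by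
  rw [ab_flatten, ab_flatten, List.map_take, List.map_take, wl_map hx]

theorem length_eq_of_ab {w w' : List (Fin d)} (h : ab w = ab w') : w.length = w'.length :=
  (perm_of_ab h).length_eq

theorem wl_st {x : Idx W → List (Fin d)} (hx : x ∈ outcomes W) (a : Fin d) (j : ℕ) :
    st (wl W x a) j = st (W a) j := length_eq_of_ab (wl_take hx a j)

theorem glue_ab {x : Idx W → List (Fin d)} (hx : x ∈ outcomes W) (a : Fin d) :
    ab (glue W x a) = ab (W a).flatten := by
  change ab (wl W x a).flatten = _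
  rw [ab_flatten, ab_flatten, wl_map hx]

theorem glue_take {x : Idx W → List (Fin d)} (hx : x ∈ outcomes W) (a : Fin d) (j : ℕ)
    (hj : j < (W a).length) (k : ℕ) (hk : k ≤ (W a)[j].length) :
    ab ((glue W x a).take (st (W a) j + k)) =
      ab ((W a).take j).flatten + ab ((x ⟨a, ⟨j, hj⟩⟩).take k) := by
  have hj' : j < (wl W x a).length := by rw [wl_length]; exact hj
  have hlen : (x ⟨a, ⟨j, hj⟩⟩).length = (W a)[j].length :=
    (mem_outcomes.1 hx ⟨a, ⟨j, hj⟩⟩).length_eq
  have h1 := take_at (wl W x a) j hj' k (by rw [wl_get x a j hj, hlen]; exact hk)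
  rw [wl_st hx, wl_take hx, wl_get x a j hj] at h1
  exact h1

/-- the random substitution has the same incidence matrix, and bounded discrepancy -/
theorem glue_mem {u : Fin d → ℝ} (hu : ∀ i, 0 < u i) (hu1 : ∑ i, u i = 1)
    {A : Matrix (Fin d) (Fin d) ℤ} {B : ℝ} (hB : 0 ≤ B)
    {σ : Fin d → List (Fin d)} (hσ : σ ∈ SubSet u A B) (hW : ∀ a, (W a).flatten = σ a) {L : ℕ}
    (hL : ∀ a, ∀ w ∈ W a, w.length ≤ L) {x : Idx W → List (Fin d)} (hx : x ∈ outcomes W) :
    glue W x ∈ SubSet u A (2 * B + 2 * ((d : ℝ) + 1) * L) := by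
  have hL0 : (0 : ℝ) ≤ L := Nat.cast_nonneg L
  have hd0 : (0 : ℝ) ≤ d := Nat.cast_nonneg d
  have hB2 : 2 * B ^ 2 + 2 * (d * (L : ℝ) ^ 2) ≤ (2 * B + 2 * ((d : ℝ) + 1) * L) ^ 2 := by
    have e : (2 * B + 2 * ((d : ℝ) + 1) * L) ^ 2 = 4 * B ^ 2 + 8 * (B * (((d : ℝ) + 1) * L)) +
        4 * (((d : ℝ) + 1) ^ 2 * (L : ℝ) ^ 2) := by ring
    have h1 : 0 ≤ B * (((d : ℝ) + 1) * L) := by positivity
    have h2 : (d : ℝ) * (L : ℝ) ^ 2 ≤ ((d : ℝ) + 1) ^ 2 * (L : ℝ) ^ 2 :=
      mul_le_mul_of_nonneg_right (by nlinarith) (sq_nonneg _)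
    have h3 : 0 ≤ B ^ 2 := sq_nonneg _
    have h4 : 0 ≤ ((d : ℝ) + 1) ^ 2 * (L : ℝ) ^ 2 := by positivity
    rw [e]
    linarith
  have hab : ∀ a, ab (glue W x a) = ab (σ a) := fun a => by rw [glue_ab hx, hW]
  refine ⟨?_, fun a k => ?_⟩
  · rw [← hσ.1]
    ext i j
    exact congrFun (hab j) i
  · by_cases hk : k < (σ a).length
    · obtain ⟨j, hj, h1, h2⟩ := find_block (W a) k (by rw [hW]; exact hk)
      obtain ⟨r, rfl⟩ : ∃ r, k = st (W a) j + r := ⟨k - st (W a) j, by omega⟩
      rw [glue_take hx a j hj r (by omega)]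
      have h3 := take_at (W a) j hj 0 (Nat.zero_le _)
      rw [List.take_zero, ab_nil, add_zero, add_zero, hW] at h3
      rw [← h3]
      refine (GSurg_dis_add u _ _).trans ?_
      have h4 := hσ.2 a (st (W a) j)
      have h5 : dis u (ab ((x ⟨a, ⟨j, hj⟩⟩).take r)) ≤ d * (L : ℝ) ^ 2 := by
        apply GSurg_dis_ab hu hu1
        rw [List.length_take]
        have h6 : (x ⟨a, ⟨j, hj⟩⟩).length = (W a)[j].length :=
          (mem_outcomes.1 hx ⟨a, ⟨j, hj⟩⟩).length_eq
        have h7 := hL a (W a)[j] (List.getElem_mem hj)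
        omega
      linarith
    · have hlen : (glue W x a).length = (σ a).length := length_eq_of_ab (hab a)
      rw [List.take_of_length_le (by omega), hab]
      have h4 := hσ.2 a (σ a).length
      rw [List.take_length] at h4
      have h5 : (0 : ℝ) ≤ 2 * (d * (L : ℝ) ^ 2) := by positivity
      have h6 : 0 ≤ B ^ 2 := sq_nonneg _
      linarith

/-- One-sided surgery: a piece of length `2 H + 1` of a path can be replaced by a piece with the same
end points which contains a given edge of a near-by path. -/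
def Surg (u : Fin d → ℝ) (B : ℝ) (H : ℕ) : Prop :=
  ∀ (z q q' s : Fin d → ℤ) (l : Fin d), dis u z ≤ B ^ 2 → dis u (z + ev l) ≤ B ^ 2 →
    dis u q ≤ B ^ 2 → dis u q' ≤ B ^ 2 → ∑ i, z i = ∑ i, (q + s) i + H →
    ∑ i, q' i = ∑ i, q i + (2 * H + 1 : ℕ) → dis u s ≤ 1 →
    ∃ w : List (Fin d), w.length = 2 * H + 1 ∧ q + ab w = q' ∧ z = q + s + ab (w.take H) ∧
      ∃ h : H < w.length, w[H] = l

theorem ev_sum (l : Fin d) : ∑ i, ev l i = 1 := by
  simp [ev]

theorem surg_exists (u : Fin d → ℝ) (hu : ∀ i, 0 < u i) (B : ℝ) (hB : 0 ≤ B) :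
    ∃ H : ℕ, Surg u B H := by
  obtain ⟨H, hH⟩ := GSurg_K u hu (2 * B + 1)
  refine ⟨H, fun z q q' s l hz hzl hq hq' hsz hsq hs => ?_⟩
  have a1 := GSurg_abs hB hz
  have a2 := GSurg_abs hB hzl
  have a3 := GSurg_abs hB hq
  have a4 := GSurg_abs hB hq'
  have a5 := GSurg_abs (R := 1) zero_le_one (by rw [one_pow]; exact hs)
  simp only [Pi.add_apply, Finset.sum_add_distrib] at hsz
  obtain ⟨v₁, b1, b2⟩ := GSurg_piece u q (z - s) H (by
    simp only [Pi.sub_apply, Finset.sum_sub_distrib]
    omega) (fun i => by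
    rw [GSurg_D_sub]
    have c1 := abs_le.1 (a1 i)
    have c3 := abs_le.1 (a3 i)
    have c5 := abs_le.1 (a5 i)
    have c6 := hH i
    rw [abs_le]
    constructor <;> linarith [c1.1, c1.2, c3.1, c3.2, c5.1, c5.2])
  obtain ⟨v₂, b3, b4⟩ := GSurg_piece u (z + ev l - s) q' H (by
    have := ev_sum l
    simp only [Pi.sub_apply, Pi.add_apply, Finset.sum_sub_distrib, Finset.sum_add_distrib]
    push_cast at hsq
    omega) (fun i => by
    rw [GSurg_D_sub]
    have c1 := abs_le.1 (a2 i)
    have c3 := abs_le.1 (a4 i)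
    have c5 := abs_le.1 (a5 i)
    have c6 := hH i
    rw [abs_le]
    constructor <;> linarith [c1.1, c1.2, c3.1, c3.2, c5.1, c5.2])
  refine ⟨v₁ ++ l :: v₂, by simp [b2, b4]; omega, ?_, ?_, by simp [b2], ?_⟩
  · rw [ab_append, ab_cons, ← b3, ← add_assoc, ← add_assoc, b1]
    abel
  · rw [List.take_append_of_le_length (by omega), List.take_of_length_le (by omega)]
    have e : q + s + ab v₁ = (q + ab v₁) + s := by abel
    rw [e, b1]
    abel
  · rw [List.getElem_append_right (by omega)]
    simp [b2]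

/-- a rearrangement of one block which produces a common edge with another block, which is
unchanged -/
theorem exists_target {u : Fin d → ℝ} {A : Matrix (Fin d) (Fin d) ℤ} {B : ℝ} {H : ℕ}
    (hsurg : Surg u B H) {σ : Fin d → List (Fin d)} (hσ : σ ∈ SubSet u A B)
    (hW : ∀ a, (W a).flatten = σ a) {a b : Fin d} {s : Fin d → ℤ} (hs : dis u s ≤ 1)
    {j : ℕ} (hj : j < (W a).length) {j' : ℕ} (hj' : j' < (W b).length) {r r' : ℕ}
    (hr : r + (2 * H + 1) ≤ (W a)[j].length) (hr' : r' + (2 * H + 1) ≤ (W b)[j'].length)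
    (hsum : ((st (W b) j' + r' : ℕ) : ℤ) + ∑ i, s i = ((st (W a) j + r : ℕ) : ℤ)) :
    ∃ T : List (Fin d), T.Perm (W b)[j'] ∧
      ∀ x ∈ outcomes W, x ⟨a, ⟨j, hj⟩⟩ = (W a)[j] → x ⟨b, ⟨j', hj'⟩⟩ = T →
        ∃ e, e ∈ edges 0 (glue W x a) ∧ e ∈ edges s (glue W x b) := by
  have hendA := end_le (W a) j hj
  have hendB := end_le (W b) j' hj'
  rw [hW] at hendA hendB
  have hsum' : ∀ (l : List (Fin d)) (m : ℕ), m ≤ l.length → ∑ i, ab (l.take m) i = (m : ℤ) := by
    intro l m hm
    rw [ab_sum, List.length_take, min_eq_left hm]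
  have eA : ∀ k, k ≤ (W a)[j].length → ab ((σ a).take (st (W a) j + k)) =
      ab ((W a).take j).flatten + ab ((W a)[j].take k) := by
    intro k hk
    rw [← hW a]
    exact take_at (W a) j hj k hk
  have eB : ∀ k, k ≤ (W b)[j'].length → ab ((σ b).take (st (W b) j' + k)) =
      ab ((W b).take j').flatten + ab ((W b)[j'].take k) := by
    intro k hk
    rw [← hW b]
    exact take_at (W b) j' hj' k hk
  have hlt : st (W a) j + (r + H) < (σ a).length := by omega
  have hsucc : ab ((σ a).take (st (W a) j + (r + (H + 1)))) =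
      ab ((σ a).take (st (W a) j + (r + H))) + ev (σ a)[st (W a) j + (r + H)] :=
    GBad_take_succ (σ a) (st (W a) j + (r + H)) hlt
  obtain ⟨w, hlen, hw, hz, hk, hlet⟩ := hsurg
    (ab ((σ a).take (st (W a) j + (r + H))))
    (ab ((σ b).take (st (W b) j' + r'))) (ab ((σ b).take (st (W b) j' + (r' + (2 * H + 1))))) s
    (σ a)[st (W a) j + (r + H)]
    (hσ.2 _ _) (by rw [← hsucc]; exact hσ.2 _ _) (hσ.2 _ _) (hσ.2 _ _)
    (by
      simp only [Pi.add_apply, Finset.sum_add_distrib]
      rw [hsum' _ _ (by omega), hsum' _ _ (by omega), hsum]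
      push_cast
      ring)
    (by rw [hsum' _ _ (by omega), hsum' _ _ (by omega)]; push_cast; ring) hs
  have h2 : ab ((W b)[j'].take r') + ab w = ab ((W b)[j'].take (r' + w.length)) := by
    rw [eB r' (by omega), eB (r' + (2 * H + 1)) hr', add_assoc] at hw
    rw [hlen]
    exact add_left_cancel hw
  refine ⟨GBad_rep (W b)[j'] r' w, perm_of_ab (GBad_rep_ab _ _ _ (by omega) h2),
    fun x hx hx1 hx2 => ?_⟩
  have fA : ∀ k, k ≤ (W a)[j].length → ab ((glue W x a).take (st (W a) j + k)) =
      ab ((σ a).take (st (W a) j + k)) := by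
    intro k hk
    rw [glue_take hx a j hj k hk, hx1, eA k hk]
  have fB : ∀ k, k ≤ 2 * H + 1 → ab ((glue W x b).take (st (W b) j' + r' + k)) =
      ab ((σ b).take (st (W b) j' + r')) + ab (w.take k) := by
    intro k hk
    rw [add_assoc, glue_take hx b j' hj' (r' + k) (by omega), hx2,
      GBad_rep_mid _ _ _ (by omega) k (by omega), eB r' (by omega), add_assoc]
  have lA : (glue W x a).length = (σ a).length := by
    rw [← hW a]
    exact length_eq_of_ab (glue_ab hx a)
  have lB : (glue W x b).length = (σ b).length := by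
    rw [← hW b]
    exact length_eq_of_ab (glue_ab hx b)
  have g2 : ab (w.take (H + 1)) = ab (w.take H) + ev w[H] := GBad_take_succ w H hk
  refine Coin.edge (k := st (W a) j + (r + H)) (k' := st (W b) j' + r' + H)
    ⟨by omega, by omega, ?_, ?_⟩
  · rw [fA (r + H) (by omega), fB H (by omega), hz]
    abel
  · have e1 : st (W a) j + (r + H) + 1 = st (W a) j + (r + (H + 1)) := by ring
    have e2 : st (W b) j' + r' + H + 1 = st (W b) j' + r' + (H + 1) := by ring
    rw [e1, e2, fA (r + (H + 1)) (by omega), fB (H + 1) (by omega), hsucc, hz, g2, hlet]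
    abel

end Pool.Agent.K9h94.SA
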