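import Pool.Agent.H812R2.PI.Defs

/-!
Random local rearrangements of a substitution: the images of the letters are cut into blocks, and the
blocks are replaced by random rearrangements of their letters.
-/

set_option autoImplicit false

namespace Pool.Agent.K9h94.SA

open scoped BigOperators

variable {d : ℕ}

/-- The names of the blocks: `W a` is the list of the blocks of the image of the letter `a`. -/
abbrev Idx (W : Fin d → List (List (Fin d))) : Type := (a : Fin d) × Fin (W a).length

/-- The block with the name `i`. -/
def blk (W : Fin d → List (List (Fin d))) (i : Idx W) : List (Fin d) := (W i.1)[i.2]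

/-- The finite set of all rearrangements of the letters of the block `i`. -/
def rearr (W : Fin d → List (List (Fin d))) (i : Idx W) : Finset (List (Fin d)) :=
  (blk W i).permutations.toFinset

/-- The finite set of all families of rearrangements of the blocks. -/
def outcomes (W : Fin d → List (List (Fin d))) : Finset (Idx W → List (Fin d)) :=
  Fintype.piFinset (rearr W)

/-- The substitution whose images are the products of the words `x ⟨a, 0⟩`, `x ⟨a, 1⟩`, ... -/
def glue (W : Fin d → List (List (Fin d))) (x : Idx W → List (Fin d)) : Fin d → List (Fin d) :=
  fun a => (List.ofFn fun j : Fin (W a).length => x ⟨a, j⟩).flatten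

/-- `μ` is a probability distribution on the families of rearrangements of the blocks, such that for
all blocks `i` outside of the set `Z`, if the words which replace all the other blocks are given, then
the conditional probability that the block `i` is replaced by a word `w` is at least `ε` for every
rearrangement `w` of its letters, and at least `κ` if `w` is the block itself. -/
structure IsNoise (W : Fin d → List (List (Fin d))) (Z : Finset (Idx W)) (κ ε : ℝ)
    (μ : (Idx W → List (Fin d)) → ℝ) : Prop where
  nonneg : ∀ x ∈ outcomes W, 0 ≤ μ x
  sum_one : ∑ x ∈ outcomes W, μ x = 1
  unchanged : ∀ i, i ∉ Z → ∀ x ∈ outcomes W,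
    κ * ∑ w ∈ rearr W i, μ (Function.update x i w) ≤ μ (Function.update x i (blk W i))
  lower : ∀ i, i ∉ Z → ∀ x ∈ outcomes W, ∀ w ∈ rearr W i,
    ε * ∑ w' ∈ rearr W i, μ (Function.update x i w') ≤ μ (Function.update x i w)

open Classical in
/-- The probability that the random substitution `glue W x` has the property `E`. -/
noncomputable def prob (W : Fin d → List (List (Fin d))) (μ : (Idx W → List (Fin d)) → ℝ)
    (E : (Fin d → List (Fin d)) → Prop) : ℝ :=
  ∑ x ∈ (outcomes W).filter (fun x => E (glue W x)), μ x

end Pool.Agent.K9h94.SA
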