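import Pool.Agent.K9h94.SA.Prob
import Pool.Agent.R889.PZ.GAbs

/-!
Smoothed analysis of the Pisot substitution conjecture.
-/

set_option autoImplicit false

namespace Pool.Agent.K9h94.SA

open Pool.Agent.H812R2.PI Pool.Agent.TH100.Pisot Pool.Agent.Y480.PI Pool.Agent.R889.PZ
open scoped BigOperators

variable {m : ℕ}

theorem subSet_mono {d : ℕ} {u : Fin d → ℝ} {A : Matrix (Fin d) (Fin d) ℤ} {B B' : ℝ}
    (hB : 0 ≤ B) (h : B ≤ B') {σ : Fin d → List (Fin d)} (hσ : σ ∈ SubSet u A B) :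
    σ ∈ SubSet u A B' :=
  ⟨hσ.1, fun a k => (hσ.2 a k).trans (pow_le_pow_left₀ hB h 2)⟩

theorem tube_mono {ι : Type} {M : ι → Matrix (Fin (m+1)) (Fin (m+1)) ℤ}
    {u : ι → Fin (m+1) → ℝ} {B B' : ℝ} (hB : 0 ≤ B) (h : B ≤ B') {T K K' : ℕ} (hK : K ≤ K')
    {τ : Fin (m+1) → List (Fin (m+1))} (hτ : TubeBlock M u B T K' τ) : TubeBlock M u B' T K τ := by
  obtain ⟨ρ, τ', h1, h2, h3, i, k, hk, h4⟩ := hτ
  exact ⟨ρ, τ', h1, h2, h3, i, k, by omega, subSet_mono hB h h4⟩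

/-- a substitution with all coincidences of a certain strength absorbs in all compositions -/
theorem absorb {ι : Type} [Fintype ι] (M : ι → Matrix (Fin (m+1)) (Fin (m+1)) ℤ)
    (hM : ∀ i, PisotMat (M i)) (R : ∀ i, PD (M i)) (B : ℝ) (T : ℕ) :
    ∃ (K : ℕ) (D : ι → ℝ), ∀ i, ∀ n ≥ K, ∀ τ ∈ SubSet (R i).u (M i ^ n) B, (R i).Hit τ (D i) →
      ∀ ρ : Fin (m+1) → List (Fin (m+1)), ((inc ρ).det = 1 ∨ (inc ρ).det = -1) →
      (∀ a, (ρ a).length ≤ T) → ∀ l₁ l₂ : List (Fin (m+1) → List (Fin (m+1))),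
      (∀ τ' ∈ l₁ ++ l₂, TubeBlock M (fun i => (R i).u) B T K τ') →
        PisotMat (inc (compList (l₁ ++ [comp ρ τ] ++ l₂))) ∧
        Coinc (compList (l₁ ++ [comp ρ τ] ++ l₂)) ∧
        SemiConjToral (compList (l₁ ++ [comp ρ τ] ++ l₂)) := by
  classical
  obtain ⟨κ, E, Q, hκ, hE, hQ0, hQ, K0, hK0⟩ := family_consts M R T B
  obtain ⟨D, hD⟩ : ∃ D : ℝ, D = (16 * (2 + (1 + κ) * ((m:ℝ) + 1)) ^ 2 + 4) * (2 * E) + κ :=
    ⟨_, rfl⟩
  have hall1 := fun i => hb_hit (R i) D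
  choose K1 hK1 using hall1
  refine ⟨K0 + ∑ i, K1 i, fun i => (R i).c * (2 * D), fun i n hn τ hτ hhit ρ hdet hT l₁ l₂ hl => ?_⟩
  have hKi : K1 i ≤ ∑ i, K1 i := Finset.single_le_sum (f := K1) (fun i _ => Nat.zero_le _)
    (Finset.mem_univ i)
  have hdet' : (inc ρ).det ≠ 0 := by
    rcases hdet with h | h <;> rw [h] <;> norm_num
  have hHb : Hb D (comp ρ τ) := hK1 i n (by omega) ρ hdet' τ hτ.1 hhit
  have hmem : ∀ τ' ∈ l₁ ++ [comp ρ τ] ++ l₂,
      TubeBlock M (fun i => (R i).u) B T K0 τ' := by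
    intro τ' h
    rw [List.mem_append, List.mem_append] at h
    have hmono : ∀ τ'', TubeBlock M (fun i => (R i).u) B T (K0 + ∑ i, K1 i) τ'' →
        TubeBlock M (fun i => (R i).u) B T K0 τ'' := by
      rintro τ'' ⟨ρ', τ₀, h1, h2, h3, i', k, hk, h4⟩
      exact ⟨ρ', τ₀, h1, h2, h3, i', k, by omega, h4⟩
    rcases h with (h | h) | h
    · exact hmono _ (hl τ' (List.mem_append_left _ h))
    · rw [List.mem_singleton.1 h]
      exact ⟨ρ, τ, rfl, hdet, hT, i, n, by omega, hτ⟩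
    · exact hmono _ (hl τ' (List.mem_append_right _ h))
  have hb : ∀ τ' ∈ l₁ ++ [comp ρ τ] ++ l₂, Blk κ E Q τ' := fun τ' h => hK0 τ' (hmem τ' h)
  have hpis : PisotMat (inc (compList (l₁ ++ [comp ρ τ] ++ l₂))) :=
    list_pisot hQ hκ _ hb (by simp) fun τ' h => tube_det hM (hmem τ' h)
  obtain ⟨lam', u', hlam', hu', hs'⟩ := exists_u _ (inc_nonneg _) hpis
  obtain ⟨P', -, -⟩ := exists_PD _ (inc_nonneg _) hpis lam' hlam' u' hu' hs'
  rw [hD] at hHb
  have hgood := list_good2 hQ0 hE l₁ l₂ (comp ρ τ) hb hHb hpis P'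
  exact ⟨hpis, (coinc_iff P').2 hgood.2.1, hgood.2.2⟩

/-- `S` absorbs: for all `ρ` with determinant `± 1` and images of length at most `T`, all compositions
of `ρ ∘ S` on both sides with tube blocks satisfy the conclusion of the Pisot conjecture. -/
def Absorbs {ι : Type} (M : ι → Matrix (Fin (m+1)) (Fin (m+1)) ℤ) (u : ι → Fin (m+1) → ℝ)
    (B : ℝ) (T K : ℕ) (S : Fin (m+1) → List (Fin (m+1))) : Prop :=
  ∀ ρ : Fin (m+1) → List (Fin (m+1)), ((inc ρ).det = 1 ∨ (inc ρ).det = -1) →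
    (∀ a, (ρ a).length ≤ T) → ∀ l₁ l₂ : List (Fin (m+1) → List (Fin (m+1))),
    (∀ τ' ∈ l₁ ++ l₂, TubeBlock M u B T K τ') →
      PisotMat (inc (compList (l₁ ++ [comp ρ S] ++ l₂))) ∧
      Coinc (compList (l₁ ++ [comp ρ S] ++ l₂)) ∧
      SemiConjToral (compList (l₁ ++ [comp ρ S] ++ l₂))

theorem smoothed_blocks {ι : Type} [Fintype ι] (M : ι → Matrix (Fin (m+1)) (Fin (m+1)) ℤ)
    (hM : ∀ i, PisotMat (M i)) (R : ∀ i, PD (M i)) (B : ℝ) (hB : 0 ≤ B) :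
    ∃ K₀ : ℕ, ∀ L : ℕ, K₀ ≤ L → ∀ T : ℕ, ∃ (K : ℕ) (C c : ℝ), 0 < C ∧ 0 < c ∧
      ∀ i, ∀ n ≥ K, ∀ σ ∈ SubSet (R i).u (M i ^ n) B,
      ∀ W : Fin (m+1) → List (List (Fin (m+1))), (∀ a, (W a).flatten = σ a) →
      (∀ a, ∀ w ∈ W a, K₀ ≤ w.length ∧ w.length ≤ L) →
      ∀ Z : Finset (Idx W), (Z.card : ℝ) ≤ c * (R i).lam ^ n →
      ∀ κ ε : ℝ, 0 ≤ κ → κ ≤ 1 → 0 ≤ ε → ε ≤ 1 →
      ∀ μ : (Idx W → List (Fin (m+1))) → ℝ, IsNoise W Z κ ε μ →
      prob W μ (fun S => ¬ Absorbs M (fun i => (R i).u) B T K S) ≤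
        C * Real.exp (-(c * κ * ε * (R i).lam ^ n)) := by
  classical
  have hall := fun i => hit_prob (R i) B hB
  choose H0 hH0 hhit using hall
  -- a common lower bound for the length of the blocks
  refine ⟨∑ i, H0 i, fun L hL T => ?_⟩
  have hHi : ∀ i, H0 i ≤ ∑ i, H0 i := fun i => Finset.single_le_sum (f := H0)
    (fun i _ => Nat.zero_le _) (Finset.mem_univ i)
  obtain ⟨B', hB'⟩ : ∃ B' : ℝ, B' = 2 * B + 2 * (((m + 1 : ℕ) : ℝ) + 1) * L := ⟨_, rfl⟩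
  have hBB' : B ≤ B' := by
    have : (0 : ℝ) ≤ 2 * (((m + 1 : ℕ) : ℝ) + 1) * L := by positivity
    rw [hB']
    linarith
  obtain ⟨K1, D, hD⟩ := absorb M hM R B' T
  have hall2 := fun i => hhit i L ((hHi i).trans hL) (D i)
  choose C c hC hc n₀ hprob using hall2
  obtain ⟨c0, hc0, hc0i⟩ : ∃ c0 : ℝ, 0 < c0 ∧ ∀ i, c0 ≤ c i := by
    have hs : 0 ≤ ∑ i, (c i)⁻¹ := Finset.sum_nonneg fun i _ => (inv_pos.2 (hc i)).le
    refine ⟨(1 + ∑ i, (c i)⁻¹)⁻¹, by positivity, fun i => ?_⟩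
    have h1 := Finset.single_le_sum (f := fun i => (c i)⁻¹)
      (fun i _ => (inv_pos.2 (hc i)).le) (Finset.mem_univ i)
    exact inv_le_of_inv_le₀ (hc i) (by linarith)
  have hCi : ∀ i, C i ≤ 1 + ∑ i, C i := by
    intro i
    have := Finset.single_le_sum (f := C) (fun i _ => (hC i).le) (Finset.mem_univ i)
    linarith
  have hCs : 0 ≤ ∑ i, C i := Finset.sum_nonneg fun i _ => (hC i).le
  refine ⟨K1 + ∑ i, n₀ i + 1, 1 + ∑ i, C i, c0, by linarith, hc0, ?_⟩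
  intro i n hn σ hσ W hW hWL Z hZ κ ε hκ hκ1 hε hε1 μ hμ
  have hni : n₀ i ≤ ∑ i, n₀ i := Finset.single_le_sum (f := n₀) (fun i _ => Nat.zero_le _)
    (Finset.mem_univ i)
  have hxpos : 0 < (R i).lam ^ n := pow_pos (lt_trans one_pos (R i).lam_gt) n
  have h1 := hprob i n (by omega) (by omega) σ hσ W hW
    (fun a w hw => ⟨(hHi i).trans (hWL a w hw).1, (hWL a w hw).2⟩) Z
    (hZ.trans (mul_le_mul_of_nonneg_right (hc0i i) hxpos.le)) κ ε hκ hκ1 hε hε1 μ hμ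
  refine (prob_mono hμ fun x hx hnot => ?_).trans (h1.trans ?_)
  · intro hH
    apply hnot
    intro ρ hdet hT l₁ l₂ hl
    have hS : glue W x ∈ SubSet (R i).u (M i ^ n) B' := by
      rw [hB']
      exact glue_mem (R i).u_pos (R i).u_sum hB hσ hW (fun a w hw => (hWL a w hw).2) hx
    exact hD i n (by omega) _ hS hH ρ hdet hT l₁ l₂
      (fun τ' h => tube_mono hB hBB' (by omega) (hl τ' h))
  · refine mul_le_mul (hCi i) ?_ (Real.exp_pos _).le (by linarith)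
    rw [Real.exp_le_exp]
    have h3 : 0 ≤ κ * ε * (R i).lam ^ n := by positivity
    nlinarith [mul_le_mul_of_nonneg_right (hc0i i) h3]

/-! ### independent noise -/

section
variable {d : ℕ} {W : Fin d → List (List (Fin d))}

theorem product_noise {Z : Finset (Idx W)} {κ ε : ℝ} {p : Idx W → List (Fin d) → ℝ}
    (h0 : ∀ i, ∀ w ∈ rearr W i, 0 ≤ p i w) (h1 : ∀ i, ∑ w ∈ rearr W i, p i w = 1)
    (h2 : ∀ i, i ∉ Z → κ ≤ p i (blk W i)) (h3 : ∀ i, i ∉ Z → ∀ w ∈ rearr W i, ε ≤ p i w) :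
    IsNoise W Z κ ε (fun x => ∏ i, p i (x i)) := by
  classical
  have hupd : ∀ x : Idx W → List (Fin d), ∀ i w, ∏ k, p k (Function.update x i w k) =
      p i w * ∏ k ∈ Finset.univ.erase i, p k (x k) := by
    intro x i w
    rw [← Finset.mul_prod_erase Finset.univ _ (Finset.mem_univ i), Function.update_self]
    congr 1
    refine Finset.prod_congr rfl fun k hk => ?_
    rw [Function.update_of_ne (Finset.ne_of_mem_erase hk)]
  have hrest : ∀ x ∈ outcomes W, ∀ i, 0 ≤ ∏ k ∈ Finset.univ.erase i, p k (x k) := by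
    intro x hx i
    exact Finset.prod_nonneg fun k _ => h0 k (x k) (mem_rearr.2 (mem_outcomes.1 hx k))
  have hsum : ∀ x : Idx W → List (Fin d), ∀ i, ∑ w ∈ rearr W i,
      ∏ k, p k (Function.update x i w k) = ∏ k ∈ Finset.univ.erase i, p k (x k) := by
    intro x i
    rw [Finset.sum_congr rfl fun w _ => hupd x i w, ← Finset.sum_mul, h1, one_mul]
  refine ⟨fun x hx => ?_, ?_, fun i hi x hx => ?_, fun i hi x hx w hw => ?_⟩
  · exact Finset.prod_nonneg fun k _ => h0 k (x k) (mem_rearr.2 (mem_outcomes.1 hx k))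
  · change ∑ x ∈ Fintype.piFinset (rearr W), ∏ i, p i (x i) = 1
    rw [← Finset.prod_univ_sum]
    exact Finset.prod_eq_one fun i _ => h1 i
  · rw [hsum, hupd]
    exact mul_le_mul_of_nonneg_right (h2 i hi) (hrest x hx i)
  · rw [hsum, hupd]
    exact mul_le_mul_of_nonneg_right (h3 i hi w hw) (hrest x hx i)

/-- lazy shuffling: every block is left unchanged with probability `1 - δ`, and with probability `δ`
it is replaced by a uniformly random rearrangement of its letters -/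
noncomputable def lazy (W : Fin d → List (List (Fin d))) (δ : ℝ) (x : Idx W → List (Fin d)) : ℝ :=
  ∏ i, ((if x i = blk W i then 1 - δ else 0) + δ / (rearr W i).card)

theorem rearr_card_pos (i : Idx W) : 0 < (rearr W i).card :=
  Finset.card_pos.2 ⟨blk W i, mem_rearr.2 (List.Perm.refl _)⟩

theorem rearr_card_le {L : ℕ} (i : Idx W) (hL : (blk W i).length ≤ L) :
    (rearr W i).card ≤ L.factorial := by
  unfold rearr
  refine (List.toFinset_card_le _).trans ?_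
  rw [List.length_permutations]
  exact Nat.factorial_le hL

theorem lazy_noise {L : ℕ} (hL : ∀ a, ∀ w ∈ W a, w.length ≤ L) {δ : ℝ} (h0 : 0 ≤ δ)
    (h1 : δ ≤ 1) : IsNoise W ∅ (1 - δ) (δ / L.factorial) (lazy W δ) := by
  classical
  have hpos : ∀ i, (0 : ℝ) < (rearr W i).card := fun i => by exact_mod_cast rearr_card_pos i
  have hLf : (0 : ℝ) < L.factorial := by exact_mod_cast Nat.factorial_pos L
  have hblk : ∀ i : Idx W, (blk W i).length ≤ L := fun i => hL i.1 _ (List.getElem_mem _)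
  have hle : ∀ i, δ / L.factorial ≤ δ / (rearr W i).card := by
    intro i
    apply div_le_div_of_nonneg_left h0 (hpos i)
    exact_mod_cast rearr_card_le i (hblk i)
  refine product_noise (p := fun i w => (if w = blk W i then 1 - δ else 0) +
    δ / (rearr W i).card) ?_ ?_ ?_ ?_
  · intro i w _
    have := div_nonneg h0 (hpos i).le
    split_ifs <;> linarith
  · intro i
    rw [Finset.sum_add_distrib, Finset.sum_const, nsmul_eq_mul, Finset.sum_ite_eq',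
      if_pos (mem_rearr.2 (List.Perm.refl _)), mul_div_cancel₀ _ (hpos i).ne']
    ring
  · intro i _
    rw [if_pos rfl]
    have := div_nonneg h0 (hpos i).le
    linarith
  · intro i _ w _
    refine (hle i).trans ?_
    split_ifs <;> linarith

end

/-- final form -/
theorem main {ι : Type} [Fintype ι] (M : ι → Matrix (Fin (m+1)) (Fin (m+1)) ℤ)
    (hnn : ∀ i a b, 0 ≤ M i a b) (hM : ∀ i, PisotMat (M i)) (lam : ι → ℝ) (hlam : ∀ i, 1 < lam i)
    (u : ι → Fin (m+1) → ℝ) (hu : ∀ i a, ∑ b, (M i a b : ℝ) * u i b = lam i * u i a)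
    (husum : ∀ i, ∑ a, u i a = 1) :
    ∃ B₀ : ℝ, ∀ B ≥ B₀,
      (∀ i, ∀ l : List (Fin (m+1) → List (Fin (m+1))), (∀ τ ∈ l, inc τ = M i) →
        compList l ∈ SubSet (u i) (M i ^ l.length) B) ∧
      ∃ K₀ : ℕ, ∀ L : ℕ, K₀ ≤ L → ∀ T : ℕ, ∃ (K : ℕ) (C c : ℝ), 0 < C ∧ 0 < c ∧
      ∀ i, ∀ n ≥ K, ∀ σ ∈ SubSet (u i) (M i ^ n) B,
      ∀ W : Fin (m+1) → List (List (Fin (m+1))), (∀ a, (W a).flatten = σ a) →
      (∀ a, ∀ w ∈ W a, K₀ ≤ w.length ∧ w.length ≤ L) →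
      ∀ Z : Finset (Idx W), (Z.card : ℝ) ≤ c * lam i ^ n →
      ∀ κ ε : ℝ, 0 ≤ κ → κ ≤ 1 → 0 ≤ ε → ε ≤ 1 →
      ∀ μ : (Idx W → List (Fin (m+1))) → ℝ, IsNoise W Z κ ε μ →
      prob W μ (fun S => ¬ Absorbs M u B T K S) ≤ C * Real.exp (-(c * κ * ε * lam i ^ n)) := by
  have hall : ∀ i, ∃ R : PD (M i), R.u = u i ∧ R.lam = lam i := fun i => by
    obtain ⟨R, h, h'⟩ := exists_PD (M i) (hnn i) (hM i) (lam i) (hlam i) (u i) (hu i) (husum i)
    exact ⟨R, h, h'⟩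
  choose R hR hRl using hall
  have hR' : u = fun i => (R i).u := (funext hR).symm
  have hRl' : lam = fun i => (R i).lam := (funext hRl).symm
  subst hR'
  subst hRl'
  have hall2 := fun i => comp_mem (hnn i) (R i)
  choose B1 hB1 using hall2
  refine ⟨∑ i, |B1 i|, fun B hB => ⟨fun i l hl => ?_, ?_⟩⟩
  · have := Finset.single_le_sum (f := fun i => |B1 i|) (fun i _ => abs_nonneg _)
      (Finset.mem_univ i)
    exact hB1 i B ((le_abs_self _).trans (this.trans hB)) l hl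
  · have hB0 : 0 ≤ B := le_trans (Finset.sum_nonneg fun i _ => abs_nonneg _) hB
    exact smoothed_blocks M hM R B hB0

end Pool.Agent.K9h94.SA
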