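import Mathlib

/-!
Finite energy: if the conditional probabilities of the values of single coordinates are bounded from
below, then it is unlikely that none of many disjoint pairs of prescribed values occurs.
-/

set_option autoImplicit false

namespace Pool.Agent.K9h94.SA

open Finset
open scoped BigOperators

variable {I α : Type} [Fintype I] [DecidableEq I] [DecidableEq α]

/-- the conditional probability of the value `w` of the coordinate `i` is at least `η` -/
def Energy (Ω : I → Finset α) (μ : (I → α) → ℝ) (i : I) (w : α) (η : ℝ) : Prop :=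
  ∀ x ∈ Fintype.piFinset Ω,
    η * ∑ w' ∈ Ω i, μ (Function.update x i w') ≤ μ (Function.update x i w)

omit [DecidableEq α] in
theorem update_mem {Ω : I → Finset α} {x : I → α} (hx : x ∈ Fintype.piFinset Ω) {i : I} {w : α}
    (hw : w ∈ Ω i) : Function.update x i w ∈ Fintype.piFinset Ω := by
  rw [Fintype.mem_piFinset] at hx ⊢
  intro k
  by_cases hk : k = i
  · subst hk
    rw [Function.update_self]
    exact hw
  · rw [Function.update_of_ne hk]
    exact hx k

theorem one_coord {Ω : I → Finset α} {μ : (I → α) → ℝ} {i : I} {w : α} {η : ℝ} (hw : w ∈ Ω i)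
    (hE : Energy Ω μ i w η) (S : (I → α) → Prop) [DecidablePred S]
    (hS : ∀ x v, S (Function.update x i v) ↔ S x) :
    η * ∑ x ∈ (Fintype.piFinset Ω).filter S, μ x ≤
      ∑ x ∈ (Fintype.piFinset Ω).filter (fun x => S x ∧ x i = w), μ x := by
  have hmaps : ∀ x ∈ (Fintype.piFinset Ω).filter S, Function.update x i w ∈
      (Fintype.piFinset Ω).filter (fun x => S x ∧ x i = w) := by
    intro x hx
    rw [mem_filter] at hx ⊢
    exact ⟨update_mem hx.1 hw, (hS x w).2 hx.2, Function.update_self ..⟩
  rw [← sum_fiberwise_of_maps_to hmaps, mul_sum]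
  refine sum_le_sum fun y hy => ?_
  rw [mem_filter] at hy
  obtain ⟨hy1, hy2, hy3⟩ := hy
  have h1 : ∑ x ∈ ((Fintype.piFinset Ω).filter S).filter (fun x => Function.update x i w = y), μ x =
      ∑ v ∈ Ω i, μ (Function.update y i v) := by
    refine sum_nbij' (fun x => x i) (fun v => Function.update y i v) ?_ ?_ ?_ ?_ ?_
    · intro x hx
      rw [mem_filter, mem_filter, Fintype.mem_piFinset] at hx
      exact hx.1.1 i
    · intro v hv
      rw [mem_filter, mem_filter]
      refine ⟨⟨update_mem hy1 hv, (hS y v).2 hy2⟩, ?_⟩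
      rw [Function.update_idem, ← hy3, Function.update_eq_self]
    · intro x hx
      rw [mem_filter] at hx
      rw [← hx.2, Function.update_idem, Function.update_eq_self]
    · intro v _
      rw [Function.update_self]
    · intro x hx
      rw [mem_filter] at hx
      rw [← hx.2, Function.update_idem, Function.update_eq_self]
  rw [h1]
  refine (hE y hy1).trans ?_
  rw [← hy3, Function.update_eq_self]

/-- The bound. -/
theorem none_le {Ω : I → Finset α} {μ : (I → α) → ℝ} (hμ : ∀ x ∈ Fintype.piFinset Ω, 0 ≤ μ x)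
    (hμ1 : ∑ x ∈ Fintype.piFinset Ω, μ x = 1) {κ ε : ℝ} (hκ : 0 ≤ κ) (hκ1 : κ ≤ 1) (hε : 0 ≤ ε)
    (hε1 : ε ≤ 1) {τ : Type} {f g : τ → I} {s t : τ → α} (hf : Function.Injective f)
    (hg : Function.Injective g) (hfg : ∀ k k', f k ≠ g k') (hs : ∀ k, s k ∈ Ω (f k))
    (ht : ∀ k, t k ∈ Ω (g k)) (G : Finset τ) (h1 : ∀ k ∈ G, Energy Ω μ (f k) (s k) κ)
    (h2 : ∀ k ∈ G, Energy Ω μ (g k) (t k) ε) :
    ∑ x ∈ (Fintype.piFinset Ω).filter (fun x => ∀ k ∈ G, ¬ (x (f k) = s k ∧ x (g k) = t k)),
      μ x ≤ Real.exp (-(κ * ε * G.card)) := by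
  classical
  have hκε : κ * ε ≤ 1 := by nlinarith
  have hκε0 : 0 ≤ κ * ε := mul_nonneg hκ hε
  have key : ∀ G' : Finset τ, G' ⊆ G →
      ∑ x ∈ (Fintype.piFinset Ω).filter (fun x => ∀ k ∈ G', ¬ (x (f k) = s k ∧ x (g k) = t k)),
        μ x ≤ (1 - κ * ε) ^ G'.card := by
    intro G'
    induction G' using Finset.induction_on with
    | empty =>
      intro _
      simp [hμ1]
    | insert r G' hr ih =>
      intro hsub
      have hrG : r ∈ G := hsub (mem_insert_self _ _)
      have ih' := ih (fun k hk => hsub (mem_insert_of_mem hk))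
      obtain ⟨S, hS⟩ : ∃ S : (I → α) → Prop, ∀ x, S x ↔
          ∀ k ∈ G', ¬ (x (f k) = s k ∧ x (g k) = t k) := ⟨_, fun x => Iff.rfl⟩
      have e1 : (Fintype.piFinset Ω).filter (fun x => ∀ k ∈ G',
          ¬ (x (f k) = s k ∧ x (g k) = t k)) = (Fintype.piFinset Ω).filter S :=
        filter_congr fun x _ => (hS x).symm
      have e2 : (Fintype.piFinset Ω).filter (fun x => ∀ k ∈ insert r G',
          ¬ (x (f k) = s k ∧ x (g k) = t k)) =
          (Fintype.piFinset Ω).filter (fun x => S x ∧ ¬ (x (f r) = s r ∧ x (g r) = t r)) := by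
        refine filter_congr fun x _ => ?_
        rw [hS, forall_mem_insert]
        tauto
      rw [e1] at ih'
      rw [e2, card_insert_of_notMem hr, pow_succ]
      have hSf : ∀ x v, S (Function.update x (f r) v) ↔ S x := by
        intro x v
        rw [hS, hS]
        refine forall_congr' fun k => imp_congr_right fun hk => ?_
        have hne : k ≠ r := fun h => hr (h ▸ hk)
        rw [Function.update_of_ne (fun h => hne (hf h)), Function.update_of_ne (hfg r k).symm]
      have hSg : ∀ x v, (S (Function.update x (g r) v) ∧ Function.update x (g r) v (f r) = s r) ↔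
          (S x ∧ x (f r) = s r) := by
        intro x v
        rw [Function.update_of_ne (hfg r r)]
        refine and_congr_left fun _ => ?_
        rw [hS, hS]
        refine forall_congr' fun k => imp_congr_right fun hk => ?_
        have hne : k ≠ r := fun h => hr (h ▸ hk)
        rw [Function.update_of_ne (hfg k r), Function.update_of_ne (fun h => hne (hg h))]
      have b1 := one_coord (hs r) (h1 r hrG) S hSf
      have b2 := one_coord (ht r) (h2 r hrG) (fun x => S x ∧ x (f r) = s r) hSg
      have e3 : ∑ x ∈ (Fintype.piFinset Ω).filter S, μ x =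
          ∑ x ∈ (Fintype.piFinset Ω).filter (fun x => (S x ∧ x (f r) = s r) ∧ x (g r) = t r), μ x +
          ∑ x ∈ (Fintype.piFinset Ω).filter (fun x => S x ∧ ¬ (x (f r) = s r ∧ x (g r) = t r)),
            μ x := by
        rw [← sum_filter_add_sum_filter_not ((Fintype.piFinset Ω).filter S)
          (fun x => x (f r) = s r ∧ x (g r) = t r), filter_filter, filter_filter]
        congr 1
        refine sum_congr (filter_congr fun x _ => ?_) fun _ _ => rfl
        tauto
      have h3 : 0 ≤ ∑ x ∈ (Fintype.piFinset Ω).filter S, μ x :=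
        sum_nonneg fun x hx => hμ x (mem_filter.1 hx).1
      have h4 : κ * ε * ∑ x ∈ (Fintype.piFinset Ω).filter S, μ x ≤
          ∑ x ∈ (Fintype.piFinset Ω).filter (fun x => (S x ∧ x (f r) = s r) ∧ x (g r) = t r), μ x := by
        refine le_trans ?_ b2
        calc κ * ε * ∑ x ∈ (Fintype.piFinset Ω).filter S, μ x =
            ε * (κ * ∑ x ∈ (Fintype.piFinset Ω).filter S, μ x) := by ring
          _ ≤ _ := mul_le_mul_of_nonneg_left b1 hε
      calc _ ≤ (1 - κ * ε) * ∑ x ∈ (Fintype.piFinset Ω).filter S, μ x := by linarith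
        _ ≤ (1 - κ * ε) * (1 - κ * ε) ^ G'.card :=
            mul_le_mul_of_nonneg_left ih' (by linarith)
        _ = _ := by ring
  refine (key G subset_rfl).trans ?_
  calc (1 - κ * ε) ^ G.card ≤ Real.exp (-(κ * ε)) ^ G.card := by
        refine pow_le_pow_left₀ (by linarith) ?_ _
        have := Real.add_one_le_exp (-(κ * ε))
        linarith
    _ = Real.exp (-(κ * ε * G.card)) := by
        rw [← Real.exp_nat_mul]
        congr 1
        ring

end Pool.Agent.K9h94.SA
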