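import Pool.Agent.K9h94.SA.Blocks
import Pool.Agent.K9h94.SA.Prod

/-!
With high probability the random substitution has coincidences of any prescribed strength.
-/

set_option autoImplicit false

namespace Pool.Agent.K9h94.SA

open Pool.Agent.H812R2.PI Pool.Agent.TH100.Pisot Pool.Agent.Y480.PI
open scoped BigOperators

variable {d : ℕ} {W : Fin d → List (List (Fin d))}

theorem prob_mono {Z : Finset (Idx W)} {κ ε : ℝ} {μ : (Idx W → List (Fin d)) → ℝ}
    (hμ : IsNoise W Z κ ε μ) {E E' : (Fin d → List (Fin d)) → Prop}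
    (h : ∀ x ∈ outcomes W, E (glue W x) → E' (glue W x)) :
    prob W μ E ≤ prob W μ E' := by
  classical
  unfold prob
  refine Finset.sum_le_sum_of_subset_of_nonneg ?_ ?_
  · intro x hx
    rw [Finset.mem_filter] at hx ⊢
    exact ⟨hx.1, h x hx.1 hx.2⟩
  · intro x hx _
    exact hμ.nonneg x (Finset.mem_filter.1 hx).1

theorem prob_union {Z : Finset (Idx W)} {κ ε : ℝ} {μ : (Idx W → List (Fin d)) → ℝ}
    (hμ : IsNoise W Z κ ε μ) {τ : Type} (F : Finset τ) {E : (Fin d → List (Fin d)) → Prop}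
    {E' : τ → (Fin d → List (Fin d)) → Prop}
    (h : ∀ x ∈ outcomes W, E (glue W x) → ∃ t ∈ F, E' t (glue W x)) :
    prob W μ E ≤ ∑ t ∈ F, prob W μ (E' t) := by
  classical
  unfold prob
  simp only [Finset.sum_filter]
  rw [Finset.sum_comm]
  refine Finset.sum_le_sum fun x hx => ?_
  have hw := hμ.nonneg x hx
  have hn : ∀ t ∈ F, 0 ≤ (if E' t (glue W x) then μ x else 0) := by
    intro t _
    split_ifs
    · exact hw
    · exact le_rfl
  by_cases hE : E (glue W x)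
  · obtain ⟨t, ht, htE⟩ := h x hx hE
    rw [if_pos hE]
    refine le_trans ?_ (Finset.single_le_sum hn ht)
    rw [if_pos htE]
  · rw [if_neg hE]
    exact Finset.sum_nonneg hn

theorem idx_eq {a b : Fin d} {j j' : ℕ} {hj : j < (W a).length} {hj' : j' < (W b).length}
    (h : (⟨a, ⟨j, hj⟩⟩ : Idx W) = ⟨b, ⟨j', hj'⟩⟩) : a = b ∧ j = j' := by
  have h1 := congrArg (fun i : Idx W => i.1) h
  have h2 := congrArg (fun i : Idx W => (i.2 : ℕ)) h
  exact ⟨h1, h2⟩

/-- few indices are lost -/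
theorem card_good {R : ℕ} {I : Type} [DecidableEq I] (f g : Fin R → I)
    (hf : Function.Injective f) (hg : Function.Injective g) (Z : Finset I) :
    R ≤ ((Finset.univ : Finset (Fin R)).filter (fun r => f r ∉ Z ∧ g r ∉ Z)).card + 2 * Z.card := by
  classical
  have h1 : (Finset.univ : Finset (Fin R)) ⊆
      (Finset.univ.filter (fun r => f r ∉ Z ∧ g r ∉ Z)) ∪
        ((Finset.univ.filter (fun r => f r ∈ Z)) ∪ (Finset.univ.filter (fun r => g r ∈ Z))) := by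
    intro r _
    simp only [Finset.mem_union, Finset.mem_filter, Finset.mem_univ, true_and]
    tauto
  have h2 : ∀ h : Fin R → I, Function.Injective h →
      ((Finset.univ : Finset (Fin R)).filter (fun r => h r ∈ Z)).card ≤ Z.card := by
    intro h hh
    refine Finset.card_le_card_of_injOn h (fun r hr => ?_) (fun r _ r' _ e => hh e)
    simpa using hr
  have h3 := Finset.card_le_card h1
  rw [Finset.card_univ, Fintype.card_fin] at h3
  have h4 := Finset.card_union_le ((Finset.univ : Finset (Fin R)).filter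
    (fun r => f r ∉ Z ∧ g r ∉ Z)) ((Finset.univ.filter (fun r => f r ∈ Z)) ∪
      (Finset.univ.filter (fun r => g r ∈ Z)))
  have h5 := Finset.card_union_le ((Finset.univ : Finset (Fin R)).filter (fun r => f r ∈ Z))
    (Finset.univ.filter (fun r => g r ∈ Z))
  have h6 := h2 f hf
  have h7 := h2 g hg
  omega

/-- many disjoint pairs of blocks -/
theorem pairs_bound {u : Fin d → ℝ} {A : Matrix (Fin d) (Fin d) ℤ} {B : ℝ} {H L : ℕ}
    (hKL : 2 * (2 * H + 1) ≤ L) (hsurg : Surg u B H) {σ : Fin d → List (Fin d)}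
    (hσ : σ ∈ SubSet u A B) (hW : ∀ a, (W a).flatten = σ a)
    (hL : ∀ a, ∀ w ∈ W a, 2 * (2 * H + 1) ≤ w.length ∧ w.length ≤ L)
    {Z : Finset (Idx W)} {κ ε : ℝ} {μ : (Idx W → List (Fin d)) → ℝ}
    (hμ : IsNoise W Z κ ε μ) (hκ : 0 ≤ κ) (hκ1 : κ ≤ 1) (hε : 0 ≤ ε) (hε1 : ε ≤ 1)
    {a b : Fin d} {s : Fin d → ℤ}
    (hs : dis u s ≤ 1) {t t' R : ℕ} (hst : (t' : ℤ) + ∑ i, s i = t)
    (hA : t + 4 * L * R ≤ (σ a).length) (hB : t' + 4 * L * R ≤ (σ b).length)
    (hsep : a = b → t + 4 * L * R ≤ t' ∨ t' + 4 * L * R ≤ t) :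
    prob W μ (fun S => ¬ ∃ e, e ∈ edges 0 (S a) ∧ e ∈ edges s (S b)) ≤
      Real.exp (-(κ * ε * ((R : ℝ) - 2 * Z.card))) := by
  classical
  have hmul : ∀ r r' : ℕ, r < r' → 4 * L * r + 4 * L ≤ 4 * L * r' := by
    intro r r' h
    calc 4 * L * r + 4 * L = 4 * L * (r + 1) := by ring
      _ ≤ 4 * L * r' := Nat.mul_le_mul_left _ h
  have hsel : ∀ r : Fin R, ∃ (j : ℕ) (hj : j < (W a).length) (j' : ℕ) (hj' : j' < (W b).length)
      (y : ℕ), 0 < y ∧ y ≤ L + (2 * H + 1) ∧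
      t + 4 * L * r < st (W a) j ∧ st (W a) j + (W a)[j].length ≤ t + 4 * L * r + 2 * L ∧
      st (W a) j ≤ t + 4 * L * r + y ∧
      t + 4 * L * r + y + (2 * H + 1) ≤ st (W a) j + (W a)[j].length ∧
      st (W b) j' ≤ t' + 4 * L * r + y ∧
      t' + 4 * L * r + y + (2 * H + 1) ≤ st (W b) j' + (W b)[j'].length := by
    intro r
    have h1 := hmul r R r.2
    exact select (by omega) hKL (hL a) (hL b) _ _ (by rw [hW]; omega) (by rw [hW]; omega)
  choose j hj j' hj' y hy0 hy1 h1 h2 h3 h4 h5 h6 using hsel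
  have htar : ∀ r : Fin R, ∃ T : List (Fin d), T.Perm ((W b)[j' r]'(hj' r)) ∧
      ∀ x ∈ outcomes W, x ⟨a, ⟨j r, hj r⟩⟩ = ((W a)[j r]'(hj r)) → x ⟨b, ⟨j' r, hj' r⟩⟩ = T →
        ∃ e, e ∈ edges 0 (glue W x a) ∧ e ∈ edges s (glue W x b) := by
    intro r
    have g3 := h3 r
    have g4 := h4 r
    have g5 := h5 r
    have g6 := h6 r
    refine exists_target hsurg hσ hW hs (hj r) (hj' r)
      (r := t + 4 * L * r + y r - st (W a) (j r)) (r' := t' + 4 * L * r + y r - st (W b) (j' r))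
      (by omega) (by omega) ?_
    rw [Nat.add_sub_cancel' g3, Nat.add_sub_cancel' g5]
    push_cast
    linarith
  choose T hT₂ hT using htar
  obtain ⟨f, hfdef⟩ : ∃ f : Fin R → Idx W, f = fun r => ⟨a, ⟨j r, hj r⟩⟩ := ⟨_, rfl⟩
  obtain ⟨g, hgdef⟩ : ∃ g : Fin R → Idx W, g = fun r => ⟨b, ⟨j' r, hj' r⟩⟩ := ⟨_, rfl⟩
  have hf : Function.Injective f := by
    have key : ∀ r r' : Fin R, (r : ℕ) < r' → j r ≠ j r' := by
      intro r r' hlt he
      have e1 := h2 r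
      have e2 := h1 r'
      have e3 := hmul r r' hlt
      have e4 : st (W a) (j r) = st (W a) (j r') := by rw [he]
      omega
    intro r r' h
    rw [hfdef] at h
    have h7 := (idx_eq h).2
    rcases lt_trichotomy (r : ℕ) (r' : ℕ) with h8 | h8 | h8
    · exact absurd h7 (key r r' h8)
    · exact Fin.ext h8
    · exact absurd h7.symm (key r' r h8)
  have hg : Function.Injective g := by
    have key : ∀ r r' : Fin R, (r : ℕ) < r' → j' r ≠ j' r' := by
      intro r r' hlt he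
      have e1 := h5 r
      have e2 := h6 r'
      have e3 := hmul r r' hlt
      have e4 : st (W b) (j' r) = st (W b) (j' r') := by rw [he]
      have e5 := (hL b ((W b)[j' r']'(hj' r')) (List.getElem_mem (hj' r'))).2
      have e6 := hy1 r
      have e7 := hy0 r'
      omega
    intro r r' h
    rw [hgdef] at h
    have h7 := (idx_eq h).2
    rcases lt_trichotomy (r : ℕ) (r' : ℕ) with h8 | h8 | h8
    · exact absurd h7 (key r r' h8)
    · exact Fin.ext h8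
    · exact absurd h7.symm (key r' r h8)
  have hfg : ∀ r r' : Fin R, f r ≠ g r' := by
    intro r r' h
    rw [hfdef, hgdef] at h
    obtain ⟨hab, he⟩ := idx_eq h
    subst hab
    have e1 := h1 r
    have e2 := h2 r
    have e3 := h5 r'
    have e4 := h6 r'
    have e5 := hmul r R r.2
    have e6 := hmul r' R r'.2
    have e7 := hy0 r'
    have e8 := hy1 r'
    have e9 : st (W a) (j r) = st (W a) (j' r') := by rw [he]
    have e10 : ((W a)[j r]'(hj r)).length = ((W a)[j' r']'(hj' r')).length := by simp only [he]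
    rcases hsep rfl with h8 | h8 <;> omega
  obtain ⟨G, hG⟩ : ∃ G : Finset (Fin R), G =
      (Finset.univ : Finset (Fin R)).filter (fun r => f r ∉ Z ∧ g r ∉ Z) := ⟨_, rfl⟩
  have hGcard : (R : ℝ) - 2 * Z.card ≤ G.card := by
    have := card_good f g hf hg Z
    rw [← hG] at this
    have h7 : (R : ℝ) ≤ G.card + 2 * Z.card := by exact_mod_cast this
    linarith
  have hsmem : ∀ r, blk W (f r) ∈ rearr W (f r) := fun r => mem_rearr.2 (List.Perm.refl _)
  have htmem : ∀ r, T r ∈ rearr W (g r) := fun r => by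
    rw [mem_rearr, hgdef]
    exact hT₂ r
  have hnone := none_le (Ω := rearr W) (μ := μ) hμ.nonneg hμ.sum_one hκ hκ1 hε hε1 hf hg hfg
    (s := fun r => blk W (f r)) (t := T) hsmem htmem G
    (fun r hr x hx => hμ.unchanged (f r) (by
      rw [hG, Finset.mem_filter] at hr
      exact hr.2.1) x hx)
    (fun r hr x hx => hμ.lower (g r) (by
      rw [hG, Finset.mem_filter] at hr
      exact hr.2.2) x hx (T r) (htmem r))
  refine le_trans ?_ (hnone.trans ?_)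
  · unfold prob
    refine Finset.sum_le_sum_of_subset_of_nonneg ?_ ?_
    · intro x hx
      simp only [Finset.mem_filter] at hx ⊢
      refine ⟨hx.1, fun r _ hr => hx.2 (hT r x hx.1 ?_ ?_)⟩
      · have := hr.1
        rw [hfdef] at this
        exact this
      · have := hr.2
        rw [hgdef] at this
        exact this
    · intro x hx _
      simp only [Finset.mem_filter] at hx
      exact hμ.nonneg x hx.1
  · rw [Real.exp_le_exp]
    have h7 : 0 ≤ κ * ε := mul_nonneg hκ hε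
    nlinarith [mul_le_mul_of_nonneg_left hGcard h7]

/-- one pair of edges -/
theorem triple_bound {M : Matrix (Fin d) (Fin d) ℤ} (P : PD M) (B : ℝ) (H L : ℕ)
    (hKL : 2 * (2 * H + 1) ≤ L) (hsurg : Surg P.u B H) (a b : Fin d) (v : Fin d → ℤ)
    (hov : 0 < P.OV (0, a) (v, b)) (hne : ¬ (v = 0 ∧ a = b)) :
    ∃ c : ℝ, 0 < c ∧ ∃ n₀ : ℕ, ∀ n ≥ n₀, ∀ σ ∈ SubSet P.u (M ^ n) B,
      ∀ W : Fin d → List (List (Fin d)), (∀ a, (W a).flatten = σ a) →
      (∀ a, ∀ w ∈ W a, 2 * (2 * H + 1) ≤ w.length ∧ w.length ≤ L) →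
      ∀ Z : Finset (Idx W), (Z.card : ℝ) ≤ c * P.lam ^ n →
      ∀ κ ε : ℝ, 0 ≤ κ → κ ≤ 1 → 0 ≤ ε → ε ≤ 1 →
      ∀ μ : (Idx W → List (Fin d)) → ℝ, IsNoise W Z κ ε μ →
      prob W μ (fun S => ¬ ∃ e, e ∈ edges 0 (S a) ∧ e ∈ edges ((M ^ n).mulVec v) (S b)) ≤
        Real.exp 1 * Real.exp (-(c * κ * ε * P.lam ^ n)) := by
  obtain ⟨c, hc, n₀, hgeo⟩ := geom P a b v hov hne
  have hLr : (0 : ℝ) < L := by
    have : 0 < L := by omega
    exact_mod_cast this
  refine ⟨c / (16 * L), by positivity, n₀,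
    fun n hn σ hσ W hW hL Z hZ κ ε hκ hκ1 hε hε1 μ hμ => ?_⟩
  obtain ⟨hdis, hJ⟩ := hgeo n hn
  obtain ⟨x, hx⟩ : ∃ x : ℝ, x = c * P.lam ^ n / (4 * L) := ⟨_, rfl⟩
  have hxpos : 0 < P.lam ^ n := pow_pos (lt_trans one_pos P.lam_gt) n
  have hx0 : 0 ≤ x := by rw [hx]; positivity
  have hx4 : c / (16 * L) * P.lam ^ n = x / 4 := by
    rw [hx]
    field_simp
    norm_num
  obtain ⟨R, hR⟩ : ∃ R : ℕ, R = ⌊x⌋₊ := ⟨_, rfl⟩
  have hR1 : (R : ℝ) ≤ x := by rw [hR]; exact Nat.floor_le hx0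
  have hR2 : x < R + 1 := by rw [hR]; exact Nat.lt_floor_add_one _
  have hKJ : ((4 * L * R : ℕ) : ℝ) ≤ c * P.lam ^ n := by
    push_cast
    rw [hx, le_div_iff₀ (by positivity)] at hR1
    linarith
  obtain ⟨T, t1, t2, t3, t4, t5⟩ := hJ (4 * L * R) hKJ
  obtain ⟨t, ht⟩ : ∃ t : ℕ, T = t := ⟨T.toNat, by omega⟩
  obtain ⟨t', ht'⟩ : ∃ t' : ℕ, T - ∑ i, (M ^ n).mulVec v i = t' :=
    ⟨(T - ∑ i, (M ^ n).mulVec v i).toNat, by omega⟩
  have hlenA : t + 4 * L * R ≤ (σ a).length := by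
    have := GBad_length hσ.1 a
    zify; rw [this, ← ht]; push_cast at t2; exact t2
  have hlenB : t' + 4 * L * R ≤ (σ b).length := by
    have := GBad_length hσ.1 b
    zify; rw [this, ← ht']; push_cast at t4; exact t4
  have hsep : a = b → (t + 4 * L * R ≤ t' ∨ t' + 4 * L * R ≤ t) := by
    intro hab
    have h6 := t5 hab
    have h7 : ∑ i, (M ^ n).mulVec v i = (t : ℤ) - t' := by omega
    rw [h7] at h6
    rcases le_abs.1 h6 with h8 | h8
    · right; zify; push_cast at h8; linarith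
    · left; zify; push_cast at h8; linarith
  refine (pairs_bound hKL hsurg hσ hW hL hμ hκ hκ1 hε hε1 hdis (t := t) (t' := t') (R := R)
    (by omega) hlenA hlenB hsep).trans ?_
  rw [← Real.exp_add, Real.exp_le_exp]
  have h8 : κ * ε ≤ 1 := by nlinarith
  have h9 : 0 ≤ κ * ε := mul_nonneg hκ hε
  have h10 : c / (16 * L) * κ * ε * P.lam ^ n = κ * ε * (x / 4) := by
    rw [← hx4]
    ring
  rw [h10]
  rw [hx4] at hZ
  have h11 : x / 4 - 1 ≤ (R : ℝ) - 2 * Z.card := by linarith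
  have h12 := mul_le_mul_of_nonneg_left h11 h9
  linarith

/-- all coincidences of strength `D` -/
theorem hit_prob {M : Matrix (Fin d) (Fin d) ℤ} (P : PD M) (B : ℝ) (hB : 0 ≤ B) :
    ∃ K : ℕ, 0 < K ∧ ∀ L : ℕ, K ≤ L → ∀ D : ℝ, ∃ C c : ℝ, 0 < C ∧ 0 < c ∧
      ∃ n₀ : ℕ, ∀ n ≥ n₀, 1 ≤ n → ∀ σ ∈ SubSet P.u (M ^ n) B,
      ∀ W : Fin d → List (List (Fin d)), (∀ a, (W a).flatten = σ a) →
      (∀ a, ∀ w ∈ W a, K ≤ w.length ∧ w.length ≤ L) →
      ∀ Z : Finset (Idx W), (Z.card : ℝ) ≤ c * P.lam ^ n →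
      ∀ κ ε : ℝ, 0 ≤ κ → κ ≤ 1 → 0 ≤ ε → ε ≤ 1 →
      ∀ μ : (Idx W → List (Fin d)) → ℝ, IsNoise W Z κ ε μ →
      prob W μ (fun S => ¬ P.Hit S D) ≤ C * Real.exp (-(c * κ * ε * P.lam ^ n)) := by
  classical
  obtain ⟨H, hsurg⟩ := surg_exists P.u P.u_pos B hB
  refine ⟨2 * (2 * H + 1), by omega, fun L hKL D => ?_⟩
  have hWfin := pairs_finite P D
  obtain ⟨F, hF⟩ : ∃ F : Finset (Fin d × Fin d × (Fin d → ℤ)),
      F = hWfin.toFinset.filter (fun t => ¬ (t.2.2 = 0 ∧ t.1 = t.2.1)) := ⟨_, rfl⟩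
  have hFmem : ∀ t, t ∈ F ↔ (P.N (rv t.2.2) ≤ D ∧ 0 < P.OV (0, t.1) (t.2.2, t.2.1)) ∧
      ¬ (t.2.2 = 0 ∧ t.1 = t.2.1) := by
    intro t
    rw [hF, Finset.mem_filter, Set.Finite.mem_toFinset]
    rfl
  have hall : ∀ t : {t // t ∈ F}, ∃ c : ℝ, 0 < c ∧ ∃ n₀ : ℕ, ∀ n ≥ n₀,
      ∀ σ ∈ SubSet P.u (M ^ n) B,
      ∀ W : Fin d → List (List (Fin d)), (∀ a, (W a).flatten = σ a) →
      (∀ a, ∀ w ∈ W a, 2 * (2 * H + 1) ≤ w.length ∧ w.length ≤ L) →
      ∀ Z : Finset (Idx W), (Z.card : ℝ) ≤ c * P.lam ^ n →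
      ∀ κ ε : ℝ, 0 ≤ κ → κ ≤ 1 → 0 ≤ ε → ε ≤ 1 →
      ∀ μ : (Idx W → List (Fin d)) → ℝ, IsNoise W Z κ ε μ →
      prob W μ (fun S => ¬ ∃ e, e ∈ edges 0 (S t.1.1) ∧
        e ∈ edges ((M ^ n).mulVec t.1.2.2) (S t.1.2.1)) ≤
        Real.exp 1 * Real.exp (-(c * κ * ε * P.lam ^ n)) := by
    intro t
    have ht := (hFmem t.1).1 t.2
    exact triple_bound P B H L hKL hsurg _ _ _ ht.1.2 ht.2
  choose c hc n₀ hbound using hall
  obtain ⟨c0, hc0, hc0i⟩ : ∃ c0 : ℝ, 0 < c0 ∧ ∀ t, c0 ≤ c t := by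
    have hs : 0 ≤ ∑ t, (c t)⁻¹ := Finset.sum_nonneg fun t _ => (inv_pos.2 (hc t)).le
    refine ⟨(1 + ∑ t, (c t)⁻¹)⁻¹, by positivity, fun t => ?_⟩
    have h1 := Finset.single_le_sum (f := fun t => (c t)⁻¹)
      (fun t _ => (inv_pos.2 (hc t)).le) (Finset.mem_univ t)
    exact inv_le_of_inv_le₀ (hc t) (by linarith)
  refine ⟨F.card * Real.exp 1 + 1, c0, by positivity, hc0, ∑ t, n₀ t,
    fun n hn h1n σ hσ W hW hL Z hZ κ ε hκ hκ1 hε hε1 μ hμ => ?_⟩
  have hxpos : 0 < P.lam ^ n := pow_pos (lt_trans one_pos P.lam_gt) n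
  have hinc : ∀ x ∈ outcomes W, inc (glue W x) = M ^ n := by
    intro x hx
    rw [← hσ.1]
    ext i j
    have : ab (glue W x j) = ab (σ j) := by rw [glue_ab hx, hW]
    exact congrFun this i
  have h2 : prob W μ (fun S => ¬ P.Hit S D) ≤ ∑ t ∈ F.attach, prob W μ (fun S => ¬ ∃ e,
      e ∈ edges 0 (S t.1.1) ∧ e ∈ edges ((M ^ n).mulVec t.1.2.2) (S t.1.2.1)) := by
    refine prob_union hμ F.attach fun x hx hnot => ?_
    by_contra hcon
    push Not at hcon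
    apply hnot
    intro a b v hv hov
    rw [hinc x hx]
    by_cases hab : v = 0 ∧ a = b
    · obtain ⟨rfl, rfl⟩ := hab
      have hne : glue W x a ≠ [] := JList_ne_nil (P.pow n h1n) _ (hinc x hx) a
      obtain ⟨z, l, hzl⟩ := List.exists_cons_of_ne_nil hne
      rw [Matrix.mulVec_zero]
      exact ⟨(0, z), by rw [hzl]; simp [edges], by rw [hzl]; simp [edges]⟩
    · have ht : (a, b, v) ∈ F := (hFmem (a, b, v)).2 ⟨⟨hv, hov⟩, hab⟩
      exact hcon ⟨(a, b, v), ht⟩ (Finset.mem_attach _ _)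
  refine h2.trans ?_
  calc ∑ t ∈ F.attach, prob W μ (fun S => ¬ ∃ e, e ∈ edges 0 (S t.1.1) ∧
        e ∈ edges ((M ^ n).mulVec t.1.2.2) (S t.1.2.1))
      ≤ ∑ _t ∈ F.attach, Real.exp 1 * Real.exp (-(c0 * κ * ε * P.lam ^ n)) := by
        refine Finset.sum_le_sum fun t _ => ?_
        have hnt : n₀ t ≤ ∑ t, n₀ t := Finset.single_le_sum (f := n₀) (fun _ _ => Nat.zero_le _)
          (Finset.mem_univ t)
        refine (hbound t n (hnt.trans hn) σ hσ W hW hL Z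
          (hZ.trans (mul_le_mul_of_nonneg_right (hc0i t) hxpos.le)) κ ε hκ hκ1 hε hε1 μ hμ).trans ?_
        refine mul_le_mul_of_nonneg_left ?_ (Real.exp_pos _).le
        rw [Real.exp_le_exp]
        have h3 : 0 ≤ κ * ε * P.lam ^ n := by positivity
        nlinarith [mul_le_mul_of_nonneg_right (hc0i t) h3]
    _ = F.card * Real.exp 1 * Real.exp (-(c0 * κ * ε * P.lam ^ n)) := by
        rw [Finset.sum_const, Finset.card_attach, nsmul_eq_mul]
        ring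
    _ ≤ _ := by
        refine mul_le_mul_of_nonneg_right (by linarith) (Real.exp_pos _).le

end Pool.Agent.K9h94.SA
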